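import Mathlib
import Pool.Agent.V1189.DG.Odd
import Pool.Agent.Y801.Z5S.Fin

/-!
# The digits of odd zeta values

Let `window B s` be the set of the odd `j` with `B < j ≤ s` and let `K, S ≥ 1` satisfy
`2 ^ (132 S) (B + 1)² K³ log (K + 1) ≤ s²` (so `K` may be of the order `c ^ S (x² / log x) ^ (1/3)` with
`x = s / (B + 1)`, and `S` of the order `log x`).

(1) In any base `b` take the digits of `ζ(j)` for any set of more than `card (window B s) - K` of the
`j` in the window (all but at most `K - 1`). Their joint linear complexity (the least order of a common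
linear recurrence over `ℚ` for the first `L` digits of all these numbers) is at least
`(S / (S + 1) - ε) L` for all `L ≥ L₀`, uniformly in the base; no sequence whatever has a larger one
than `L`. For every `δ > 0` and all large `s` it is at least `(1 - δ) L`.

(2) If the digits are changed in at most `k` places, the joint linear complexity is still at least
`L / ∑_{i ≤ k + 1} (1 + 1/S)^i`, up to a term `C √(m log m)`.

(3) There are at least `log M / log μ - C` places `i ≤ M` at which the digit of one of these numbers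
differs from its next digit, for every `μ > 1 + 1/S`.

(4) Own bases: at every scale `Λ` at least `K` of the `j` in the window have the property that for all
bases `b` and all `L` with `M log b ≤ Λ ≤ L log b` the linear complexity `N` of the first `L` digits of
`ζ(j)` in base `b` satisfies `N log b ≥ (S / (S + 1) - ε) Λ / card (window B s)`.

(5) `ζ(5)`: the `k`-error linear complexity `m` satisfies
`L ≤ (83 + 83^2 + … + 83^(k+1)) (m + C √((m+1) log (m+2)))`, uniformly in the base.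

The definitions of digits and complexities are those of the starting file
`MP_a49cf6_nt.DigitRecurrences`.
-/

set_option autoImplicit false

namespace Pool.Agent.Results.MP_c2395a_nt.DigitsOfOddZetaValues

open Finset

/-- `ζ(j)` -/
noncomputable def zeta (j : ℕ) : ℝ := ∑' n : ℕ, 1 / ((n : ℝ) + 1) ^ j

/-- the odd numbers `j` with `B < j ≤ s` -/
def window (B s : ℕ) : Finset ℕ := (Icc (B + 1) s).filter fun j => Odd j

/-- the hypothesis on `s` -/
def Admissible (B K s S : ℕ) : Prop :=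
  1 ≤ K ∧ 1 ≤ S ∧ (2 : ℝ) ^ (132 * S) * ((B : ℝ) + 1) ^ 2 * (K : ℝ) ^ 3 * Real.log (K + 1) ≤ (s : ℝ) ^ 2

/-- `j_1, …, j_n` are distinct elements of the window, all elements but at most `K - 1` -/
def AlmostAll (B K s : ℕ) {n : ℕ} (j : Fin n → ℕ) : Prop :=
  Function.Injective j ∧ (∀ i, j i ∈ window B s) ∧ (window B s).card < n + K

/-- the `i`-th digit of `x` after the point in base `b` -/
noncomputable def digit (b : ℕ) (x : ℝ) (i : ℕ) : ℤ := ⌊x * (b : ℝ) ^ i⌋ % (b : ℤ)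

/-- The terms `s_1, …, s_L` satisfy the linear recurrence
`s_(i+m) = c_0 s_i + … + c_(m-1) s_(i+m-1)` for `1 ≤ i ≤ L - m`. -/
def Recurrence (s : ℕ → ℤ) (c : ℕ → ℚ) (L m : ℕ) : Prop :=
  ∀ i : ℕ, 1 ≤ i → i + m ≤ L → (s (i + m) : ℚ) = ∑ j ∈ range m, c j * (s (i + j) : ℚ)

/-- the linear complexity of the first `L` digits of `x` in base `b` -/
noncomputable def complexity (b : ℕ) (x : ℝ) (L : ℕ) : ℕ :=
  sInf {m | ∃ c : ℕ → ℚ, Recurrence (digit b x) c L m}

/-- the joint `k`-error linear complexity of the first `L` digits of the numbers `x j` in base `b`: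
the least order of a common recurrence for the first `L` terms of sequences of integers between `-b`
and `b` which agree with the digits of all the `x j` in all but at most `k` of the places
`1, …, L` -/
noncomputable def jointComplexity {J : ℕ} (b : ℕ) (x : Fin J → ℝ) (k L : ℕ) : ℕ :=
  sInf {m | ∃ (s : Fin J → ℕ → ℤ) (c : ℕ → ℚ), (∀ j i, |s j i| ≤ b) ∧
    ((Icc 1 L).filter fun i => ∃ j, s j i ≠ digit b (x j) i).card ≤ k ∧
    ∀ j, Recurrence (s j) c L m}

/-- the function `m + C √((m+1) log (m+2))` -/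
noncomputable def F (C : ℝ) (m : ℕ) : ℝ :=
  m + C * Real.sqrt (((m : ℝ) + 1) * Real.log ((m : ℝ) + 2))

/-- the number of `i ≤ M` such that the `i`-th and `(i+1)`-st digits differ for one of the numbers -/
noncomputable def changes {J : ℕ} (b : ℕ) (x : Fin J → ℝ) (M : ℕ) : ℕ :=
  ((Icc 1 M).filter fun i => ∃ j, digit b (x j) i ≠ digit b (x j) (i + 1)).card

/-- for `K = 1` and a fixed `B`, every `S` is admissible for all large `s` -/
lemma exists_admissible (B K S : ℕ) (hK : 1 ≤ K) (hS : 1 ≤ S) :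
    ∃ s0 : ℕ, ∀ s ≥ s0, Admissible B K s S := by
  obtain ⟨X, hX⟩ : ∃ X : ℝ, X = (2 : ℝ) ^ (132 * S) * ((B : ℝ) + 1) ^ 2 * (K : ℝ) ^ 3 *
    Real.log (K + 1) := ⟨_, rfl⟩
  obtain ⟨s0, hs0⟩ := exists_nat_gt (max X 1)
  refine ⟨s0, fun s hs => ⟨hK, hS, ?_⟩⟩
  rw [← hX]
  have h1 : (s0 : ℝ) ≤ s := by exact_mod_cast hs
  have h2 : X < s := (le_max_left _ _).trans_lt (hs0.trans_le h1)
  have h3 : 1 < (s : ℝ) := (le_max_right _ _).trans_lt (hs0.trans_le h1)
  nlinarith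

/-- `ζ(5)` -/
lemma zeta_five : ∃ c0 : ℝ, 0 < c0 ∧ Pool.Agent.W47.JL.Meas 1 ![zeta 5] 83 c0 0 := by
  obtain ⟨c, hc, h⟩ := Pool.Agent.Y801.Z5S.measure83
  refine ⟨c, hc, fun q hq p => ⟨0, ?_⟩⟩
  have h1 := h (p 0) q (by omega)
  have hqR : (0 : ℝ) < q := by exact_mod_cast (by omega : 0 < q)
  have e1 : |(q : ℝ) * zeta 5 - p 0| = q * |zeta 5 - (p 0 : ℝ) / q| := by
    rw [← abs_of_pos hqR, ← abs_mul, abs_of_pos hqR]
    congr 1
    field_simp
  have e2 : (q : ℝ) ^ ((83 : ℝ) - 1) = (q : ℝ) ^ 82 := by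
    rw [show (83 : ℝ) - 1 = ((82 : ℕ) : ℝ) by norm_num, Real.rpow_natCast]
  change c ≤ (q : ℝ) ^ ((83 : ℝ) - 1) * (1 + Real.log q) ^ (0 : ℝ) * |(q : ℝ) * zeta 5 - p 0|
  rw [Real.rpow_zero, mul_one, e1, e2]
  rw [div_le_iff₀ (by positivity)] at h1
  have e3 : (q : ℝ) ^ 82 * (q * |zeta 5 - (p 0 : ℝ) / q|) =
      |zeta 5 - (p 0 : ℝ) / q| * (q : ℝ) ^ 83 := by ring
  rw [e3]
  exact h1

/-- **The digits of odd zeta values.** See the text at the beginning of the file. -/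
theorem result :
    (∀ B K s S : ℕ, Admissible B K s S →
      -- (1)
      (∀ ε : ℝ, 0 < ε → ∃ L₀ : ℕ, ∀ (n : ℕ) (j : Fin n → ℕ), AlmostAll B K s j →
        ∀ b : ℕ, 2 ≤ b → ∀ L : ℕ, L₀ ≤ L →
          ((S : ℝ) / (S + 1) - ε) * L ≤ jointComplexity b (fun i => zeta (j i)) 0 L) ∧
      -- (2)
      (∃ C : ℝ, 0 < C ∧ ∀ (n : ℕ) (j : Fin n → ℕ), AlmostAll B K s j →
        ∀ b : ℕ, 2 ≤ b → ∀ k L : ℕ, (L : ℝ) ≤ (∑ i ∈ range (k + 1), (1 + 1 / (S : ℝ)) ^ (i + 1)) *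
          F C (jointComplexity b (fun i => zeta (j i)) k L)) ∧
      -- (3)
      (∀ μ : ℝ, 1 + 1 / (S : ℝ) < μ → ∃ C : ℝ, ∀ (n : ℕ) (j : Fin n → ℕ), AlmostAll B K s j →
        ∀ b : ℕ, 2 ≤ b → ∀ M : ℕ, 1 ≤ M →
          Real.log M / Real.log μ - C ≤ changes b (fun i => zeta (j i)) M) ∧
      -- (4)
      (∀ ε : ℝ, 0 < ε → ∃ M : ℝ, 0 < M ∧ ∀ Λ : ℝ, K ≤ Set.ncard {j : ℕ | j ∈ window B s ∧
        ∀ b L : ℕ, 2 ≤ b → M * Real.log b ≤ Λ → Λ ≤ L * Real.log b →
          ((S : ℝ) / (S + 1) - ε) * Λ ≤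
            (window B s).card * (complexity b (zeta j) L * Real.log b)})) ∧
    -- (1) for large `s`
    (∀ (B K : ℕ) (δ : ℝ), 1 ≤ K → 0 < δ → ∃ s0 : ℕ, ∀ s ≥ s0, ∃ L₀ : ℕ,
      ∀ (n : ℕ) (j : Fin n → ℕ), AlmostAll B K s j → ∀ b : ℕ, 2 ≤ b → ∀ L : ℕ, L₀ ≤ L →
        (1 - δ) * L ≤ jointComplexity b (fun i => zeta (j i)) 0 L) ∧
    -- (5)
    (∃ C : ℝ, 0 < C ∧ ∀ b : ℕ, 2 ≤ b → ∀ k L : ℕ,
      (L : ℝ) ≤ (∑ i ∈ range (k + 1), (83 : ℝ) ^ (i + 1)) *
        F C (jointComplexity b ![zeta 5] k L)) := by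
  have h1 : ∀ B K s S : ℕ, Admissible B K s S →
      ∀ ε : ℝ, 0 < ε → ∃ L₀ : ℕ, ∀ (n : ℕ) (j : Fin n → ℕ), AlmostAll B K s j →
        ∀ b : ℕ, 2 ≤ b → ∀ L : ℕ, L₀ ≤ L →
          ((S : ℝ) / (S + 1) - ε) * L ≤ jointComplexity b (fun i => zeta (j i)) 0 L := by
    intro B K s S h ε hε
    obtain ⟨L₀, hL₀⟩ := Pool.Agent.V1189.DG.odd_joint_linear B K s S h ε hε
    exact ⟨L₀, fun n j hj b hb L hL => hL₀ n j hj.1 hj.2.1 hj.2.2 b hb L hL⟩
  refine ⟨fun B K s S h => ⟨h1 B K s S h, ?_, ?_, ?_⟩, ?_, ?_⟩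
  · obtain ⟨C, hC0, hC⟩ := Pool.Agent.V1189.DG.odd_joint B K s S h
    exact ⟨C, hC0, fun n j hj b hb k L => hC n j hj.1 hj.2.1 hj.2.2 b hb k L⟩
  · intro μ hμ
    obtain ⟨C, hC⟩ := Pool.Agent.V1189.DG.odd_changes B K s S h μ hμ
    exact ⟨C, fun n j hj b hb M hM => hC n j hj.1 hj.2.1 hj.2.2 b hb M hM⟩
  · intro ε hε
    exact Pool.Agent.V1189.DG.odd_own B K s S h ε hε
  · intro B K δ hK hδ
    obtain ⟨S, hS⟩ := exists_nat_gt (2 / δ)
    have hS0 : (0 : ℝ) < S := lt_trans (by positivity) hS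
    have hS1 : 1 ≤ S := by
      have : 0 < S := by exact_mod_cast hS0
      omega
    obtain ⟨s0, hs0⟩ := exists_admissible B K S hK hS1
    refine ⟨s0, fun s hs => ?_⟩
    obtain ⟨L₀, hL₀⟩ := h1 B K s S (hs0 s hs) (δ / 2) (by linarith)
    refine ⟨L₀, fun n j hj b hb L hL => le_trans ?_ (hL₀ n j hj b hb L hL)⟩
    apply mul_le_mul_of_nonneg_right _ (Nat.cast_nonneg L)
    have h2 : 1 - δ / 2 ≤ (S : ℝ) / (S + 1) := by
      rw [le_div_iff₀ (by linarith)]
      rw [div_lt_iff₀ hδ] at hS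
      nlinarith
    linarith
  · obtain ⟨c0, hc0, hm⟩ := zeta_five
    obtain ⟨C, hC0, hC⟩ := Pool.Agent.Results.MP_a49cf6_nt.DigitRecurrences.general 83 c0
      (by norm_num) hc0
    exact ⟨C, hC0, fun b hb k L => (hC 1 _ hm b hb L).1 k⟩

end Pool.Agent.Results.MP_c2395a_nt.DigitsOfOddZetaValues
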