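import Mathlib
import Pool.Agent.V1139.DC.UnifDigits
import Pool.Agent.V1139.DC.Exp
import Pool.Agent.Y926.TW.Main
import Pool.Agent.TH957.WM.Fin
import Pool.Agent.TH957.ZM.Fin
import Pool.Agent.Y801.Z5S.Fin

/-!
# Near algebraic relations of odd zeta values

For a real number `z` and a height `X` we consider the integer polynomials `Q` of degree at most `n`
and height at most `X` for which `|Q(z)|` is smaller than a fixed negative power of `X`. If they have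
a common zero which is irrational (and then algebraic of degree at most `n`) we say that `z` has one
zero at the height `X`: at this height `z` is close to at most one algebraic number (up to
conjugation), and this number is not rational. We prove this

(1) for `ζ(5)`, with the exponent `max (83, 2 n) - 1`;
(2) for one of `ζ(7), ζ(9), ζ(11), ζ(13)`, with the exponent `117602 n - 1`, at every height;
(3) for one odd zeta value in every window `[s + 2, 21 s / 4)`, `s ≥ 3` odd, with the exponent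
    `3118 s n - 1`, at every height;
(4) for at least `K` of the odd zeta values `ζ(j)`, `b < j ≤ s`, with the exponent `(s + 3) n - 1`, at
    every height, as soon as `2^132 (b + 1)² K³ log (K + 1) ≤ s²`.

The same for digits: at every scale `Λ` there is an irrational algebraic number `ξ` such that `P(ξ)` is
rational for all integer polynomials `P` of degree at most `n` and height at most `exp (δ Λ)` such that
the digits of `P(z) / D` have small linear complexity at the scale `Λ`, in some base of its own; and the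
exponents `k ≤ n` for which some number `(A z ^ k + B) / D`, `A ≠ 0`, has this property are all
divisible by one integer `k₀ ≥ 2`.
-/

set_option autoImplicit false

namespace Pool.Agent.Results.MP_c2395a_nt.NearAlgebraicRelations

open Finset Polynomial

/-- `ζ(j)` -/
noncomputable def zeta (j : ℕ) : ℝ := ∑' n : ℕ, 1 / ((n : ℝ) + 1) ^ j

/-- the `i`-th digit of `x` after the point in base `b` -/
noncomputable def digit (b : ℕ) (x : ℝ) (i : ℕ) : ℤ := ⌊x * (b : ℝ) ^ i⌋ % (b : ℤ)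

/-- The terms `s_1, …, s_L` satisfy the linear recurrence
`s_(i+m) = c_0 s_i + … + c_(m-1) s_(i+m-1)` for `1 ≤ i ≤ L - m`. -/
def Recurrence (s : ℕ → ℤ) (c : ℕ → ℚ) (L m : ℕ) : Prop :=
  ∀ i : ℕ, 1 ≤ i → i + m ≤ L → (s (i + m) : ℚ) = ∑ j ∈ range m, c j * (s (i + j) : ℚ)

/-- the linear complexity of the first `L` digits of `x` in base `b` -/
noncomputable def complexity (b : ℕ) (x : ℝ) (L : ℕ) : ℕ :=
  sInf {m | ∃ c : ℕ → ℚ, Recurrence (digit b x) c L m}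

/-- `x` has linear complexity less than `ν Λ / log b` at the scale `Λ` in some base `b` which is not
too large, for some number `L ≥ Λ / log b` of digits -/
def Small (ν K Λ x : ℝ) : Prop :=
  ∃ b L : ℕ, 2 ≤ b ∧ K * Real.log b ≤ Λ ∧ Λ ≤ L * Real.log b ∧
    complexity b x L * Real.log b < ν * Λ

/-- `ξ` is irrational and a root of a nonzero integer polynomial of degree at most `max n 2` -/
def IrrAlg (n : ℕ) (ξ : ℂ) : Prop :=
  (¬ ∃ r : ℚ, ξ = r) ∧ ∃ G : ℤ[X], G ≠ 0 ∧ G.natDegree ≤ max n 2 ∧ aeval ξ G = 0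

/-- the integer polynomials of degree at most `n` and height at most `H` which are smaller than `ε` at
`z` have a common irrational zero -/
def OneZero (n : ℕ) (H ε z : ℝ) : Prop :=
  ∃ ξ : ℂ, IrrAlg n ξ ∧ ∀ Q : ℤ[X], Q.natDegree ≤ n → (∀ i, |(Q.coeff i : ℝ)| ≤ H) →
    |aeval z Q| < ε → aeval ξ Q = 0

/-- one irrational algebraic number `ξ` such that `P(ξ)` is rational for all the integer polynomials
`P` of degree at most `n` and height at most `exp (δ Λ)` such that the digits of some `P(z) / D`,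
`1 ≤ D ≤ exp (δ Λ)`, have small linear complexity at the scale `Λ`; for the polynomials `A X ^ k + B`
the exponents `k` are divisible by `k₀` -/
def OneValue (n : ℕ) (ν K δ Λ z : ℝ) : Prop :=
  ∃ (ξ : ℂ) (k₀ : ℕ), IrrAlg n ξ ∧ 2 ≤ k₀ ∧
    (∀ (P : ℤ[X]) (D : ℕ), P.natDegree ≤ n → 1 ≤ D → (D : ℝ) ≤ Real.exp (δ * Λ) →
      (∀ i, |(P.coeff i : ℝ)| ≤ Real.exp (δ * Λ)) → Small ν K Λ (aeval z P / D) →
      ∃ r : ℚ, aeval ξ P = r) ∧
    (∀ k : ℕ, 1 ≤ k → k ≤ n → ∀ (A B : ℤ) (D : ℕ), A ≠ 0 → 1 ≤ D →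
      |(A : ℝ)| ≤ Real.exp (δ * Λ) → |(B : ℝ)| ≤ Real.exp (δ * Λ) →
      (D : ℝ) ≤ Real.exp (δ * Λ) → Small ν K Λ ((A * z ^ k + B) / D) → k₀ ∣ k)

lemma oneZero_of_tame (n : ℕ) (H ε ε' z : ℝ) (hε : ε ≤ ε')
    (h : Pool.Agent.V1139.DC.Tame n (((n : ℝ) + 1) * H) ε' z) : OneZero n H ε z := by
  obtain ⟨ξ, hξ1, hξ2⟩ := h
  refine ⟨ξ, hξ1, fun Q hQn hQH hQ => ?_⟩
  rcases eq_or_ne Q 0 with h0 | h0
  · rw [h0, map_zero]
  · exact hξ2 Q ⟨h0, hQn, Pool.Agent.V1139.DC.MM_le Q n hQn H hQH, hQ.le.trans hε⟩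

lemma small_mono {ν ν' K Λ x : ℝ} (hK : 0 < K) (hν : ν ≤ ν') (h : Small ν K Λ x) :
    Small ν' K Λ x := by
  obtain ⟨b, L, hb, h1, h2, h3⟩ := h
  have hlb : 0 < Real.log b := Real.log_pos (by exact_mod_cast (by omega : 1 < b))
  have hΛ : 0 ≤ Λ := le_trans (by positivity) h1
  exact ⟨b, L, hb, h1, h2, h3.trans_le (mul_le_mul_of_nonneg_right hν hΛ)⟩

lemma oneValue_of_absorbs (n : ℕ) (ν ν' K δ Λ z : ℝ) (hK : 0 < K) (hν : ν' ≤ ν)
    (h : ∃ ξ : ℂ, Pool.Agent.V1139.DC.Absorbs z n ν K δ Λ ξ) : OneValue n ν' K δ Λ z := by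
  obtain ⟨ξ, hξ⟩ := h
  obtain ⟨k₀, hk₀, hk⟩ := Pool.Agent.V1139.DC.powers_small z n ν K δ Λ ξ hξ
  exact ⟨ξ, k₀, ⟨hξ.1, hξ.2.1⟩, hk₀,
    fun P D h1 h2 h3 h4 h5 => hξ.2.2 P D h1 h2 h3 h4 (small_mono hK hν h5),
    fun k h1 h2 A B D h3 h4 h5 h6 h7 h8 => hk k h1 h2 A B D h3 h4 h5 h6 h7 (small_mono hK hν h8)⟩

/-- one number with a measure of irrationality -/
theorem single (z μ c : ℝ) (hμ : 1 ≤ μ) (hc : 0 < c)
    (h : ∀ (p : ℤ) (q : ℕ), 0 < q → c / (q : ℝ) ^ μ ≤ |z - (p : ℝ) / q|) (n : ℕ) :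
    (∃ c : ℝ, 0 < c ∧ ∀ H : ℝ, 1 ≤ H → OneZero n H (c * H ^ (-(max μ (2 * n) - 1))) z) ∧
    ∀ ε : ℝ, 0 < ε → ∃ K δ : ℝ, 0 < K ∧ 0 < δ ∧ ∀ Λ : ℝ,
      OneValue n (1 / max μ (2 * n) - ε) K δ Λ z := by
  have hz := Pool.Agent.V1139.DC.hz_of_exp z μ hμ c hc h
  have hc1 : 0 < min c 1 := by positivity
  constructor
  · obtain ⟨c', hc', h'⟩ := Pool.Agent.V1139.DC.near z μ _ hμ hc1 hz n
    obtain ⟨s, hs⟩ : ∃ s : ℝ, s = (n : ℝ) + 1 := ⟨_, rfl⟩
    have hs1 : 1 ≤ s := by rw [hs]; linarith [Nat.cast_nonneg (α := ℝ) n]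
    have hs0 : 0 < s := by linarith
    refine ⟨c' / 2 * s ^ (-(max μ (2 * n) - 1)), by positivity, fun H hH => ?_⟩
    have hH0 : 0 < H := by linarith
    have hp : 0 < (s * H) ^ (-(max μ (2 * n) - 1)) := by positivity
    obtain ⟨ξ, hξ1, hξ2, hξ3⟩ := h' (s * H) (c' / 2 * (s * H) ^ (-(max μ (2 * n) - 1)))
      (one_le_mul_of_one_le_of_one_le hs1 hH) (by nlinarith)
    refine oneZero_of_tame n H _ _ z ?_ (by rw [← hs]; exact ⟨ξ, ⟨hξ1, hξ2⟩, hξ3⟩)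
    rw [Real.mul_rpow hs0.le hH0.le]
    apply le_of_eq
    ring
  · intro ε hε
    obtain ⟨K, δ, hK, hδ, h'⟩ := Pool.Agent.V1139.DC.digits z μ _ hμ hc1 hz n ε hε
    exact ⟨K, δ, hK, hδ, fun Λ => oneValue_of_absorbs n _ _ K δ Λ z hK le_rfl (h' Λ)⟩

/-- families of numbers -/
theorem fam (z : ℕ → ℝ) (A : Finset ℕ) (K : ℕ) (τ c₀ : ℝ) (hτ : 0 ≤ τ) (hc₀ : 0 < c₀)
    (q₀ : ℕ) (hz : ∀ q : ℕ, q₀ ≤ q → 1 ≤ q → K ≤ Set.ncard {j : ℕ | j ∈ A ∧
      ∀ p : ℤ, c₀ * (q : ℝ) ^ (-τ) ≤ |(q : ℝ) * z j - p|}) (m : ℝ) (hm : A.card * (1 + τ) + 2 ≤ m)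
    (n : ℕ) (hn : 1 ≤ n) :
    (∃ c : ℝ, 0 < c ∧ ∀ H : ℝ, 1 ≤ H →
      K ≤ Set.ncard {j : ℕ | j ∈ A ∧ OneZero n H (c * H ^ (-(m * n - 1))) (z j)}) ∧
    ∀ ε : ℝ, 0 < ε → ∃ K₁ δ : ℝ, 0 < K₁ ∧ 0 < δ ∧ ∀ Λ : ℝ,
      K ≤ Set.ncard {j : ℕ | j ∈ A ∧ OneValue n (1 / (m * n) - ε) K₁ δ Λ (z j)} := by
  have hn1 : (1 : ℝ) ≤ n := by exact_mod_cast hn
  have hn0 : (0 : ℝ) < n := by linarith
  have hA0 : (0 : ℝ) ≤ A.card * (1 + τ) := by positivity
  have hfin : ∀ p : ℕ → Prop, {j : ℕ | j ∈ A ∧ p j}.Finite := fun p =>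
    A.finite_toSet.subset fun j hj => hj.1
  constructor
  · obtain ⟨c', hc', h'⟩ := Pool.Agent.V1139.DC.family_tame z A K τ c₀ hτ hc₀ q₀ hz n hn
    obtain ⟨s, hs⟩ : ∃ s : ℝ, s = (n : ℝ) + 1 := ⟨_, rfl⟩
    have hs1 : 1 ≤ s := by rw [hs]; linarith
    have hs0 : 0 < s := by linarith
    obtain ⟨E, hE⟩ : ∃ E : ℝ, E = (n : ℝ) * (A.card * (1 + τ) + 2) - 1 := ⟨_, rfl⟩
    rw [← hE] at h'
    refine ⟨c' / 2 * s ^ (-E), by positivity, fun H hH => ?_⟩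
    have hH0 : 0 < H := by linarith
    have hp : 0 < (s * H) ^ (-E) := by positivity
    refine (h' (s * H) (one_le_mul_of_one_le_of_one_le hs1 hH) (c' / 2 * (s * H) ^ (-E))
      (by nlinarith)).trans (Set.ncard_le_ncard ?_ (hfin _))
    rintro j ⟨hjA, hj⟩
    refine ⟨hjA, oneZero_of_tame n H _ _ (z j) ?_ (by rw [← hs]; exact hj)⟩
    rw [Real.mul_rpow hs0.le hH0.le]
    have h1 : H ^ (-(m * n - 1)) ≤ H ^ (-E) := by
      apply Real.rpow_le_rpow_of_exponent_le hH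
      rw [hE]
      nlinarith
    calc c' / 2 * s ^ (-E) * H ^ (-(m * n - 1)) ≤ c' / 2 * s ^ (-E) * H ^ (-E) := by gcongr
      _ = _ := by ring
  · intro ε hε
    obtain ⟨K₁, δ, hK₁, hδ, h'⟩ := Pool.Agent.V1139.DC.family_digits z A K τ c₀ hτ hc₀ q₀ hz n hn
      ε hε
    refine ⟨K₁, δ, hK₁, hδ, fun Λ => (h' Λ).trans (Set.ncard_le_ncard ?_ (hfin _))⟩
    rintro j ⟨hjA, hj⟩
    refine ⟨hjA, oneValue_of_absorbs n _ _ K₁ δ Λ (z j) hK₁ ?_ hj⟩
    have h1 : 1 / (m * n) ≤ 1 / ((n : ℝ) * (A.card * (1 + τ) + 2)) := by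
      apply one_div_le_one_div_of_le (by positivity)
      rw [mul_comm m]
      exact mul_le_mul_of_nonneg_left hm hn0.le
    linarith

lemma one_le_ncard {A : Finset ℕ} {p : ℕ → Prop} (h : 1 ≤ Set.ncard {j : ℕ | j ∈ A ∧ p j}) :
    ∃ j ∈ A, p j := by
  have hne : {j : ℕ | j ∈ A ∧ p j}.Nonempty := by
    rw [Set.nonempty_iff_ne_empty]
    intro h0
    rw [h0, Set.ncard_empty] at h
    omega
  obtain ⟨j, hj1, hj2⟩ := hne
  exact ⟨j, hj1, hj2⟩

lemma ncard_of_exists {A : Finset ℕ} {p : ℕ → Prop} (h : ∃ j ∈ A, p j) :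
    1 ≤ Set.ncard {j : ℕ | j ∈ A ∧ p j} := by
  obtain ⟨j, hj1, hj2⟩ := h
  have hfin : {j : ℕ | j ∈ A ∧ p j}.Finite := A.finite_toSet.subset fun j hj => hj.1
  exact Nat.succ_le_of_lt ((Set.ncard_pos hfin).2 ⟨j, hj1, hj2⟩)

/-- **Near algebraic relations of odd zeta values.** -/
theorem result :
    -- (1) `ζ(5)`
    (∀ n : ℕ, (∃ c : ℝ, 0 < c ∧ ∀ H : ℝ, 1 ≤ H →
        OneZero n H (c * H ^ (-(max 83 (2 * (n : ℝ)) - 1))) (zeta 5)) ∧
      ∀ ε : ℝ, 0 < ε → ∃ K δ : ℝ, 0 < K ∧ 0 < δ ∧ ∀ Λ : ℝ,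
        OneValue n (1 / max 83 (2 * (n : ℝ)) - ε) K δ Λ (zeta 5)) ∧
    -- (2) one of `ζ(7), ζ(9), ζ(11), ζ(13)`
    (∀ n : ℕ, 1 ≤ n → (∃ c : ℝ, 0 < c ∧ ∀ H : ℝ, 1 ≤ H →
        ∃ j ∈ ({7, 9, 11, 13} : Finset ℕ), OneZero n H (c * H ^ (-(117602 * (n : ℝ) - 1))) (zeta j)) ∧
      ∀ ε : ℝ, 0 < ε → ∃ K δ : ℝ, 0 < K ∧ 0 < δ ∧ ∀ Λ : ℝ,
        ∃ j ∈ ({7, 9, 11, 13} : Finset ℕ), OneValue n (1 / (117602 * (n : ℝ)) - ε) K δ Λ (zeta j)) ∧
    -- (3) one number in the window `[s + 2, 21 s / 4)`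
    (∀ s : ℕ, Odd s → 3 ≤ s → ∀ n : ℕ, 1 ≤ n → (∃ c : ℝ, 0 < c ∧ ∀ H : ℝ, 1 ≤ H →
        ∃ j : ℕ, Odd j ∧ s + 2 ≤ j ∧ 4 * j < 21 * s ∧
          OneZero n H (c * H ^ (-(3118 * s * (n : ℝ) - 1))) (zeta j)) ∧
      ∀ ε : ℝ, 0 < ε → ∃ K δ : ℝ, 0 < K ∧ 0 < δ ∧ ∀ Λ : ℝ,
        ∃ j : ℕ, Odd j ∧ s + 2 ≤ j ∧ 4 * j < 21 * s ∧
          OneValue n (1 / (3118 * s * (n : ℝ)) - ε) K δ Λ (zeta j)) ∧
    -- (4) at least `K` numbers between `b` and `s`
    (∀ b K s : ℕ, 1 ≤ K → (2 : ℝ) ^ 132 * ((b : ℝ) + 1) ^ 2 * (K : ℝ) ^ 3 * Real.log (K + 1) ≤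
        (s : ℝ) ^ 2 → ∀ n : ℕ, 1 ≤ n → (∃ c : ℝ, 0 < c ∧ ∀ H : ℝ, 1 ≤ H →
        K ≤ Set.ncard {j : ℕ | b < j ∧ j ≤ s ∧ Odd j ∧
          OneZero n H (c * H ^ (-((s + 3) * (n : ℝ) - 1))) (zeta j)}) ∧
      ∀ ε : ℝ, 0 < ε → ∃ K₁ δ : ℝ, 0 < K₁ ∧ 0 < δ ∧ ∀ Λ : ℝ,
        K ≤ Set.ncard {j : ℕ | b < j ∧ j ≤ s ∧ Odd j ∧
          OneValue n (1 / ((s + 3) * (n : ℝ)) - ε) K₁ δ Λ (zeta j)}) := by
  classical
  refine ⟨fun n => ?_, fun n hn => ?_, fun s hs hs3 n hn => ?_, fun b K s hK hbs n hn => ?_⟩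
  · obtain ⟨c, hc, h⟩ := Pool.Agent.Y801.Z5S.measure83
    refine single (zeta 5) 83 c (by norm_num) hc (fun p q hq => ?_) n
    have h1 := h p q hq
    have h2 : (q : ℝ) ^ (83 : ℝ) = (q : ℝ) ^ 83 := by
      rw [← Real.rpow_natCast]; norm_num
    rw [h2]
    exact h1
  · obtain ⟨c, hc, h⟩ := Pool.Agent.TH957.ZM.main
    have hz : ∀ q : ℕ, 0 ≤ q → 1 ≤ q → 1 ≤ Set.ncard {j : ℕ | j ∈ ({7, 9, 11, 13} : Finset ℕ) ∧
        ∀ p : ℤ, c * (q : ℝ) ^ (-(29399 : ℝ)) ≤ |(q : ℝ) * zeta j - p|} := by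
      intro q _ hq
      apply ncard_of_exists
      by_contra hcon
      push Not at hcon
      choose! p hp using hcon
      obtain ⟨j, hj, hj2⟩ := h p q hq
      have hjA : j ∈ ({7, 9, 11, 13} : Finset ℕ) := by
        simp only [Finset.mem_insert, Finset.mem_singleton]; exact hj
      have hq0 : (0 : ℝ) < q := by exact_mod_cast hq
      have h3 := hp j hjA
      have h4 : |(q : ℝ) * zeta j - p j| = q * |zeta j - (p j : ℝ) / q| := by
        rw [← abs_of_pos hq0, ← abs_mul, abs_of_pos hq0]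
        congr 1
        field_simp
      have h5 : c * (q : ℝ) ^ (-(29399 : ℝ)) = q * (c / (q : ℝ) ^ 29400) := by
        rw [Real.rpow_neg hq0.le, show (29399 : ℝ) = ((29399 : ℕ) : ℝ) by norm_num,
          Real.rpow_natCast, show (29400 : ℕ) = 29399 + 1 by norm_num, pow_succ]
        field_simp
      rw [h4, h5] at h3
      have h6 := mul_le_mul_of_nonneg_left hj2 hq0.le
      exact absurd h3 (not_lt.2 h6)
    obtain ⟨h1, h2⟩ := fam zeta ({7, 9, 11, 13} : Finset ℕ) 1 29399 c (by norm_num) hc 0 hz 117602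
      (by
        have : ({7, 9, 11, 13} : Finset ℕ).card = 4 := by decide
        rw [this]; norm_num) n hn
    refine ⟨?_, fun ε hε => ?_⟩
    · obtain ⟨c', hc', h3⟩ := h1
      exact ⟨c', hc', fun H hH => one_le_ncard (h3 H hH)⟩
    · obtain ⟨K, δ, hK, hδ, h3⟩ := h2 ε hε
      exact ⟨K, δ, hK, hδ, fun Λ => one_le_ncard (h3 Λ)⟩
  · obtain ⟨q0, h⟩ := Filter.eventually_atTop.1 (Pool.Agent.TH957.WM.zeta_windows s hs hs3)
    obtain ⟨A, hA⟩ : ∃ A : Finset ℕ, A = (Finset.range (6 * s)).filter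
      fun j => Odd j ∧ s + 2 ≤ j ∧ 4 * j < 21 * s := ⟨_, rfl⟩
    have hmem : ∀ j, j ∈ A ↔ Odd j ∧ s + 2 ≤ j ∧ 4 * j < 21 * s := by
      intro j
      rw [hA, Finset.mem_filter, Finset.mem_range]
      constructor
      · exact fun h => h.2
      · exact fun h => ⟨by omega, h⟩
    obtain ⟨τ, hτ⟩ : ∃ τ : ℝ, τ = min (64 * (s : ℝ)) 1038 := ⟨_, rfl⟩
    rw [← hτ] at h
    have hs0 : (3 : ℝ) ≤ s := by exact_mod_cast hs3
    have hτ0 : 0 ≤ τ := by rw [hτ]; exact le_min (by linarith) (by norm_num)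
    have hτ1 : τ ≤ 1038 := by rw [hτ]; exact min_le_right _ _
    have hcard : A.card ≤ 3 * s := by
      -- the map `j ↦ j / 2` is injective on odd numbers
      have h1 : A.card ≤ (Finset.range (3 * s)).card := by
        refine Finset.card_le_card_of_injOn (fun j => j / 2) (fun j hj => ?_) ?_
        · rw [Finset.mem_coe, hmem] at hj
          rw [Finset.mem_coe, Finset.mem_range]
          show j / 2 < 3 * s
          omega
        · intro i hi j hj hij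
          rw [Finset.mem_coe, hmem] at hi hj
          obtain ⟨a, ha⟩ := hi.1
          obtain ⟨a', ha'⟩ := hj.1
          simp only at hij
          omega
      rwa [Finset.card_range] at h1
    have hcardR : (A.card : ℝ) ≤ 3 * s := by exact_mod_cast hcard
    obtain ⟨h1, h2⟩ := fam zeta A 1 τ 1 hτ0 one_pos q0 (by
      intro q hq hq1
      apply ncard_of_exists
      by_contra hcon
      push Not at hcon
      choose! p hp using hcon
      obtain ⟨j, hj1, hj2, hj3, hj4⟩ := h q hq p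
      have h3 := hp j ((hmem j).2 ⟨hj1, hj2, hj3⟩)
      rw [one_mul] at h3
      exact absurd h3 (not_lt.2 hj4)) (3118 * s) (by nlinarith) n hn
    refine ⟨?_, fun ε hε => ?_⟩
    · obtain ⟨c', hc', h3⟩ := h1
      refine ⟨c', hc', fun H hH => ?_⟩
      obtain ⟨j, hjA, hj⟩ := one_le_ncard (h3 H hH)
      obtain ⟨a1, a2, a3⟩ := (hmem j).1 hjA
      exact ⟨j, a1, a2, a3, hj⟩
    · obtain ⟨K, δ, hK, hδ, h3⟩ := h2 ε hε
      refine ⟨K, δ, hK, hδ, fun Λ => ?_⟩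
      obtain ⟨j, hjA, hj⟩ := one_le_ncard (h3 Λ)
      obtain ⟨a1, a2, a3⟩ := (hmem j).1 hjA
      exact ⟨j, a1, a2, a3, hj⟩
  · obtain ⟨-, q0, h⟩ := Pool.Agent.Y926.TW.main b K s 1 hK le_rfl (by simpa using hbs)
    obtain ⟨A, hA⟩ : ∃ A : Finset ℕ, A = (Finset.range (s + 1)).filter
      fun j => b < j ∧ j ≤ s ∧ Odd j := ⟨_, rfl⟩
    have hmem : ∀ j, j ∈ A ↔ b < j ∧ j ≤ s ∧ Odd j := by
      intro j
      rw [hA, Finset.mem_filter, Finset.mem_range]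
      constructor
      · exact fun h => h.2
      · exact fun h => ⟨by omega, h⟩
    have hset : ∀ p : ℕ → Prop, {j : ℕ | j ∈ A ∧ p j} = {j : ℕ | b < j ∧ j ≤ s ∧ Odd j ∧ p j} := by
      intro p
      ext j
      simp only [Set.mem_ofPred_eq, hmem]
      tauto
    have hcard : 2 * A.card ≤ s + 1 := by
      have h1 : A.card ≤ (Finset.range ((s + 1) / 2)).card := by
        refine Finset.card_le_card_of_injOn (fun j => j / 2) (fun j hj => ?_) ?_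
        · rw [Finset.mem_coe, hmem] at hj
          rw [Finset.mem_coe, Finset.mem_range]
          obtain ⟨a, ha⟩ := hj.2.2
          show j / 2 < (s + 1) / 2
          omega
        · intro i hi j hj hij
          rw [Finset.mem_coe, hmem] at hi hj
          obtain ⟨a, ha⟩ := hi.2.2
          obtain ⟨a', ha'⟩ := hj.2.2
          simp only at hij
          omega
      rw [Finset.card_range] at h1
      omega
    have hcardR : 2 * (A.card : ℝ) ≤ s + 1 := by exact_mod_cast hcard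
    obtain ⟨h1, h2⟩ := fam zeta A K 1 1 zero_le_one one_pos q0 (by
      intro q hq hq1
      rw [hset]
      refine (h q hq).trans (Set.ncard_le_ncard ?_ ?_)
      · rintro j ⟨a1, a2, a3, a4⟩
        refine ⟨a1, a2, a3, fun p => ?_⟩
        have := a4 p
        simpa [zeta] using this
      · exact (Set.finite_Iic s).subset fun j hj => hj.2.1) (s + 3) (by
        push_cast
        linarith) n hn
    refine ⟨?_, fun ε hε => ?_⟩
    · obtain ⟨c', hc', h3⟩ := h1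
      refine ⟨c', hc', fun H hH => ?_⟩
      have h4 := h3 H hH
      rw [hset] at h4
      exact h4
    · obtain ⟨K₁, δ, hK₁, hδ, h3⟩ := h2 ε hε
      refine ⟨K₁, δ, hK₁, hδ, fun Λ => ?_⟩
      have h4 := h3 Λ
      rw [hset] at h4
      exact h4

end Pool.Agent.Results.MP_c2395a_nt.NearAlgebraicRelations
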