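import Pool.Agent.H267.OZ.Poly
import Pool.Agent.Y801.Z5S.Fin
import Pool.Agent.Y926.TW.Main
import Pool.Agent.TH957.WM.Fin

/-!
# Near relations between odd zeta values and arbitrary numbers

The near relations, modulo the integers, between one (or several) odd zeta values and `r` arbitrary real numbers span a
space of dimension at most `r` at every scale, with explicit exponents.
-/

set_option autoImplicit false

namespace Pool.Agent.Results.MP_c2395a_nt.NearRelations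

open Pool.Agent.H267.OZ

lemma one_le_iff {s : Set ℕ} (h : s.Finite) : 1 ≤ s.ncard ↔ s.Nonempty := Set.ncard_pos h

/-- `ζ(5)` modulo one -/
theorem five : ∃ c₀ : ℝ, 0 < c₀ ∧ ∀ q : ℕ, 0 < q → 1 ≤ Set.ncard {j : ℕ | j ∈ ({5} : Set ℕ) ∧
    ∀ p : ℤ, c₀ * (q : ℝ) ^ (-(82 : ℝ)) ≤ |(q : ℝ) * (∑' n : ℕ, 1 / ((n : ℝ) + 1) ^ j) - p|} := by
  obtain ⟨c, hc, h⟩ := Pool.Agent.Y801.Z5S.measure83
  refine ⟨c, hc, fun q hq => ?_⟩
  rw [one_le_iff ((Set.finite_singleton 5).subset fun j hj => hj.1)]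
  refine ⟨5, rfl, fun p => ?_⟩
  have hqr : (0 : ℝ) < q := by exact_mod_cast hq
  have h1 := h p q hq
  have h2 : (q : ℝ) * (∑' n : ℕ, 1 / ((n : ℝ) + 1) ^ 5) - p =
      q * ((∑' n : ℕ, 1 / ((n : ℝ) + 1) ^ 5) - p / q) := by
    field_simp
  rw [h2, abs_mul, abs_of_pos hqr]
  calc c * (q : ℝ) ^ (-(82 : ℝ)) = q * (c / (q : ℝ) ^ 83) := by
        rw [Real.rpow_neg hqr.le]
        have : (q : ℝ) ^ (82 : ℝ) = (q : ℝ) ^ (82 : ℕ) := by norm_cast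
        rw [this]
        field_simp
    _ ≤ _ := by
        gcongr
        exact h1

/-- the two-thirds windows -/
theorem windows (b K s S : ℕ) (hK : 1 ≤ K) (hS : 1 ≤ S)
    (hs : (2 : ℝ) ^ (132 * S) * ((b : ℝ) + 1) ^ 2 * (K : ℝ) ^ 3 * Real.log (K + 1) ≤ (s : ℝ) ^ 2) :
    ∃ c₀ : ℝ, 0 < c₀ ∧ ∀ q : ℕ, 0 < q → K ≤ Set.ncard {j : ℕ | j ∈ {j : ℕ | b < j ∧ j ≤ s ∧ Odd j} ∧
      ∀ p : ℤ, c₀ * (q : ℝ) ^ (-(1 / (S : ℝ))) ≤ |(q : ℝ) * (∑' n : ℕ, 1 / ((n : ℝ) + 1) ^ j) - p|} := by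
  refine all_q _ ((Set.finite_Iic s).subset fun j hj => hj.2.1) _ _ K ?_
  obtain ⟨q0, h⟩ := (Pool.Agent.Y926.TW.main b K s S hK hS hs).2
  refine ⟨q0, fun q hq => ?_⟩
  convert h q hq using 3
  ext j
  simp only [Set.mem_ofPred_eq, and_assoc]

/-- the windows `[s + 2, 21 s / 4)` -/
theorem windows2 (s : ℕ) (hs : Odd s) (h3 : 3 ≤ s) :
    ∃ c₀ : ℝ, 0 < c₀ ∧ ∀ q : ℕ, 0 < q →
      1 ≤ Set.ncard {j : ℕ | j ∈ {j : ℕ | Odd j ∧ s + 2 ≤ j ∧ 4 * j < 21 * s} ∧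
      ∀ p : ℤ, c₀ * (q : ℝ) ^ (-(min (64 * (s : ℝ)) 1038)) ≤
        |(q : ℝ) * (∑' n : ℕ, 1 / ((n : ℝ) + 1) ^ j) - p|} := by
  have hfin : {j : ℕ | Odd j ∧ s + 2 ≤ j ∧ 4 * j < 21 * s}.Finite :=
    (Set.finite_Iic (21 * s)).subset fun j hj => by
      have := hj.2.2
      simp only [Set.mem_Iic]
      omega
  refine all_q _ hfin _ _ 1 ?_
  obtain ⟨q0, h⟩ := Filter.eventually_atTop.1 (Pool.Agent.TH957.WM.zeta_windows s hs h3)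
  refine ⟨q0, fun q hq => ?_⟩
  rw [one_le_iff (hfin.subset fun j hj => hj.1)]
  by_contra hcon
  rw [Set.not_nonempty_iff_eq_empty, Set.eq_empty_iff_forall_notMem] at hcon
  have h2 : ∀ j : ℕ, ∃ p : ℤ, (Odd j ∧ s + 2 ≤ j ∧ 4 * j < 21 * s) →
      |(q : ℝ) * (∑' n : ℕ, 1 / ((n : ℝ) + 1) ^ j) - p| < (q : ℝ) ^ (-(min (64 * (s : ℝ)) 1038)) := by
    intro j
    by_cases hj : Odd j ∧ s + 2 ≤ j ∧ 4 * j < 21 * s
    · have h4 := hcon j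
      by_contra h5
      push Not at h5
      exact h4 ⟨hj, fun p => (h5 p).2⟩
    · exact ⟨0, fun h => absurd h hj⟩
  choose P hP using h2
  obtain ⟨j, hj1, hj2, hj3, hj4⟩ := h q hq P
  exact absurd hj4 (not_le.2 (hP j ⟨hj1, hj2, hj3⟩))

/-- near relations between `ζ(5)` and arbitrary numbers -/
theorem near5 (r : ℕ) : ∃ c : ℝ, 0 < c ∧ ∀ (t : Fin r → ℝ) (X : ℝ), 1 ≤ X →
    ∀ (q : Fin (r + 1) → ℤ) (e : Fin (r + 1) → Fin r → ℤ),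
      LinearIndependent ℤ (fun k => (q k, e k)) → (∀ k, |(q k : ℝ)| ≤ X) →
      (∀ k i, |(e k i : ℝ)| ≤ X) →
      ∃ k, ∀ p : ℤ, c / X ^ (83 * r + 82) ≤
        |(q k : ℝ) * (∑' n : ℕ, 1 / ((n : ℝ) + 1) ^ 5) + ∑ i, (e k i : ℝ) * t i - p| := by
  obtain ⟨c₀, hc₀, h⟩ := five
  obtain ⟨c, hc, h'⟩ := joint {5} (Set.finite_singleton 5)
    (fun j => ∑' n : ℕ, 1 / ((n : ℝ) + 1) ^ j) 82 c₀ (by norm_num) hc₀ 1 h r
  refine ⟨c, hc, fun t X hX q e hv hq he => ?_⟩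
  have h1 := h' (fun _ => t) X hX q e hv hq he
  rw [one_le_iff
    ((Set.finite_singleton 5).subset fun j hj => hj.1)] at h1
  obtain ⟨j, hj, k, hk⟩ := h1
  rw [Set.mem_singleton_iff] at hj
  subst hj
  refine ⟨k, fun p => le_trans (le_of_eq ?_) (hk p)⟩
  have hX0 : 0 < X := by linarith
  have e1 : (r : ℝ) + (r + 1) * 82 = ((83 * r + 82 : ℕ) : ℝ) := by push_cast; ring
  rw [e1, Real.rpow_neg hX0.le, Real.rpow_natCast]
  rfl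

/-- near relations between the `ζ(j)` of a window and arbitrary numbers -/
theorem nearW (b K s S r : ℕ) (hK : 1 ≤ K) (hS : 1 ≤ S)
    (hs : (2 : ℝ) ^ (132 * S) * ((b : ℝ) + 1) ^ 2 * (K : ℝ) ^ 3 * Real.log (K + 1) ≤ (s : ℝ) ^ 2) :
    ∃ c : ℝ, 0 < c ∧ ∀ (t : ℕ → Fin r → ℝ) (X : ℝ), 1 ≤ X →
      ∀ (q : Fin (r + 1) → ℤ) (e : Fin (r + 1) → Fin r → ℤ),
        LinearIndependent ℤ (fun k => (q k, e k)) → (∀ k, |(q k : ℝ)| ≤ X) →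
        (∀ k i, |(e k i : ℝ)| ≤ X) →
        K ≤ Set.ncard {j : ℕ | b < j ∧ j ≤ s ∧ Odd j ∧
          ∃ k, ∀ p : ℤ, c * X ^ (-((r : ℝ) + ((r : ℝ) + 1) / S)) ≤
            |(q k : ℝ) * (∑' n : ℕ, 1 / ((n : ℝ) + 1) ^ j) + ∑ i, (e k i : ℝ) * t j i - p|} := by
  obtain ⟨c₀, hc₀, h⟩ := windows b K s S hK hS hs
  obtain ⟨c, hc, h'⟩ := joint {j : ℕ | b < j ∧ j ≤ s ∧ Odd j}
    ((Set.finite_Iic s).subset fun j hj => hj.2.1)
    (fun j => ∑' n : ℕ, 1 / ((n : ℝ) + 1) ^ j) (1 / (S : ℝ)) c₀ (by positivity) hc₀ K h r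
  refine ⟨c, hc, fun t X hX q e hv hq he => ?_⟩
  have h1 := h' t X hX q e hv hq he
  convert h1 using 3
  ext j
  simp only [Set.mem_ofPred_eq, and_assoc, div_eq_mul_inv, one_mul]

/-- **Near relations between odd zeta values and arbitrary numbers.**  (1) For all `r` there is `c > 0` such that for all
real numbers `t_1, …, t_r` and all `X ≥ 1`: among `r + 1` linearly independent integer vectors `(q; e_1, …, e_r)` of size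
at most `X` there is one for which `q ζ(5) + ∑ e_i t_i` has distance at least `c X ^ (-(83 r + 82))` to the integers.
(2) In particular this holds for the values `P(ζ(5))` of `r + 1` linearly independent integer polynomials of degree at
most `r + 1` and height at most `X` without constant term.  (3) The same for at least `K` of the odd `j` in the window
`(b, s]` with the exponent `r + (r + 1) / S`, if `2 ^ (132 S) (b + 1)² K³ log (K + 1) ≤ s²`; the numbers `t_{j,i}` may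
depend on `j`.  (4) The polynomial case of (3).  (5) The same for at least one odd `j` with `s + 2 ≤ j < 21 s / 4` and the
exponent `r + (r + 1) min (64 s) 1038`. -/
theorem result :
    (∀ r : ℕ, ∃ c : ℝ, 0 < c ∧ ∀ (t : Fin r → ℝ) (X : ℝ), 1 ≤ X →
      ∀ (q : Fin (r + 1) → ℤ) (e : Fin (r + 1) → Fin r → ℤ),
        LinearIndependent ℤ (fun k => (q k, e k)) → (∀ k, |(q k : ℝ)| ≤ X) →
        (∀ k i, |(e k i : ℝ)| ≤ X) →
        ∃ k, ∀ p : ℤ, c / X ^ (83 * r + 82) ≤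
          |(q k : ℝ) * (∑' n : ℕ, 1 / ((n : ℝ) + 1) ^ 5) + ∑ i, (e k i : ℝ) * t i - p|) ∧
    (∀ r : ℕ, ∃ c : ℝ, 0 < c ∧ ∀ X : ℝ, 1 ≤ X →
      ∀ P : Fin (r + 1) → Polynomial ℤ, LinearIndependent ℤ P → (∀ k, (P k).natDegree ≤ r + 1) →
        (∀ k, (P k).coeff 0 = 0) → (∀ k i, |((P k).coeff i : ℝ)| ≤ X) →
        ∃ k, ∀ p : ℤ, c / X ^ (83 * r + 82) ≤
          |Polynomial.aeval (∑' n : ℕ, 1 / ((n : ℝ) + 1) ^ 5) (P k) - (p : ℝ)|) ∧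
    (∀ b K s S r : ℕ, 1 ≤ K → 1 ≤ S →
      (2 : ℝ) ^ (132 * S) * ((b : ℝ) + 1) ^ 2 * (K : ℝ) ^ 3 * Real.log (K + 1) ≤ (s : ℝ) ^ 2 →
      ∃ c : ℝ, 0 < c ∧ ∀ (t : ℕ → Fin r → ℝ) (X : ℝ), 1 ≤ X →
      ∀ (q : Fin (r + 1) → ℤ) (e : Fin (r + 1) → Fin r → ℤ),
        LinearIndependent ℤ (fun k => (q k, e k)) → (∀ k, |(q k : ℝ)| ≤ X) →
        (∀ k i, |(e k i : ℝ)| ≤ X) →
        K ≤ Set.ncard {j : ℕ | b < j ∧ j ≤ s ∧ Odd j ∧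
          ∃ k, ∀ p : ℤ, c * X ^ (-((r : ℝ) + ((r : ℝ) + 1) / S)) ≤
            |(q k : ℝ) * (∑' n : ℕ, 1 / ((n : ℝ) + 1) ^ j) + ∑ i, (e k i : ℝ) * t j i - p|}) ∧
    (∀ b K s S r : ℕ, 1 ≤ K → 1 ≤ S →
      (2 : ℝ) ^ (132 * S) * ((b : ℝ) + 1) ^ 2 * (K : ℝ) ^ 3 * Real.log (K + 1) ≤ (s : ℝ) ^ 2 →
      ∃ c : ℝ, 0 < c ∧ ∀ X : ℝ, 1 ≤ X →
      ∀ P : Fin (r + 1) → Polynomial ℤ, LinearIndependent ℤ P → (∀ k, (P k).natDegree ≤ r + 1) →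
        (∀ k, (P k).coeff 0 = 0) → (∀ k i, |((P k).coeff i : ℝ)| ≤ X) →
        K ≤ Set.ncard {j : ℕ | b < j ∧ j ≤ s ∧ Odd j ∧
          ∃ k, ∀ p : ℤ, c * X ^ (-((r : ℝ) + ((r : ℝ) + 1) / S)) ≤
            |Polynomial.aeval (∑' n : ℕ, 1 / ((n : ℝ) + 1) ^ j) (P k) - (p : ℝ)|}) ∧
    (∀ s r : ℕ, Odd s → 3 ≤ s →
      ∃ c : ℝ, 0 < c ∧ ∀ (t : ℕ → Fin r → ℝ) (X : ℝ), 1 ≤ X →
      ∀ (q : Fin (r + 1) → ℤ) (e : Fin (r + 1) → Fin r → ℤ),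
        LinearIndependent ℤ (fun k => (q k, e k)) → (∀ k, |(q k : ℝ)| ≤ X) →
        (∀ k i, |(e k i : ℝ)| ≤ X) →
        ∃ j : ℕ, Odd j ∧ s + 2 ≤ j ∧ 4 * j < 21 * s ∧
          ∃ k, ∀ p : ℤ, c * X ^ (-((r : ℝ) + ((r : ℝ) + 1) * min (64 * (s : ℝ)) 1038)) ≤
            |(q k : ℝ) * (∑' n : ℕ, 1 / ((n : ℝ) + 1) ^ j) + ∑ i, (e k i : ℝ) * t j i - p|) := by
  refine ⟨near5, fun r => ?_, nearW, fun b K s S r hK hS hs => ?_, fun s r hs h3 => ?_⟩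
  · obtain ⟨c, hc, h⟩ := near5 r
    refine ⟨c, hc, fun X hX P hP hdeg h0 hPX => ?_⟩
    obtain ⟨k, hk⟩ := h (fun i => (∑' n : ℕ, 1 / ((n : ℝ) + 1) ^ 5) ^ ((i : ℕ) + 2)) X hX
      (fun k => (P k).coeff 1) (fun k i => (P k).coeff ((i : ℕ) + 2)) (poly_ind r P hP hdeg h0)
      (fun k => hPX k 1) (fun k i => hPX k _)
    refine ⟨k, fun p => ?_⟩
    rw [aeval_split r _ (P k) (hdeg k) (h0 k)]
    exact hk p
  · obtain ⟨c, hc, h⟩ := nearW b K s S r hK hS hs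
    refine ⟨c, hc, fun X hX P hP hdeg h0 hPX => ?_⟩
    have h1 := h (fun j i => (∑' n : ℕ, 1 / ((n : ℝ) + 1) ^ j) ^ ((i : ℕ) + 2)) X hX
      (fun k => (P k).coeff 1) (fun k i => (P k).coeff ((i : ℕ) + 2)) (poly_ind r P hP hdeg h0)
      (fun k => hPX k 1) (fun k i => hPX k _)
    refine h1.trans (Set.ncard_le_ncard ?_ ((Set.finite_Iic s).subset fun j hj => hj.2.1))
    rintro j ⟨hj1, hj2, hj3, k, hk⟩
    refine ⟨hj1, hj2, hj3, k, fun p => ?_⟩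
    rw [aeval_split r _ (P k) (hdeg k) (h0 k)]
    exact hk p
  · obtain ⟨c₀, hc₀, h⟩ := windows2 s hs h3
    have hfin : {j : ℕ | Odd j ∧ s + 2 ≤ j ∧ 4 * j < 21 * s}.Finite :=
      (Set.finite_Iic (21 * s)).subset fun j hj => by
        have := hj.2.2
        simp only [Set.mem_Iic]
        omega
    obtain ⟨c, hc, h'⟩ := joint {j : ℕ | Odd j ∧ s + 2 ≤ j ∧ 4 * j < 21 * s} hfin
      (fun j => ∑' n : ℕ, 1 / ((n : ℝ) + 1) ^ j) (min (64 * (s : ℝ)) 1038) c₀ (by positivity) hc₀ 1 h r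
    refine ⟨c, hc, fun t X hX q e hv hq he => ?_⟩
    have h1 := h' t X hX q e hv hq he
    rw [one_le_iff (hfin.subset fun j hj => hj.1)] at h1
    obtain ⟨j, ⟨hj1, hj2, hj3⟩, k, hk⟩ := h1
    exact ⟨j, hj1, hj2, hj3, k, hk⟩

end Pool.Agent.Results.MP_c2395a_nt.NearRelations
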