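import Pool.Agent.H267.OZ.RankPlane
import Pool.Agent.Results.MP_c2395a_nt.PlaneDistanceZeta7

/-!
# The rank of the near relations between `1, ζ(3), ζ(5), ζ(7)` and arbitrary numbers

For all real numbers `t_1, …, t_r` the integer relations `a_0 + a_1 ζ(3) + a_2 ζ(5) + a_3 ζ(7) + ∑ e_i t_i` of size at
most `X` whose value is smaller than `c X ^ (-(2142 r + 2141))` have rank at most `r + 1`, at every scale `X`, with `c`
independent of `t_1, …, t_r`. This is the dual form, with arbitrary numbers adjoined, of the distance of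
`(1, ζ(3), ζ(5), ζ(7))` to rational planes (`PlaneDistanceZeta7.lean`).
-/

set_option autoImplicit false

namespace Pool.Agent.Results.MP_c2395a_nt.NearRelationsZeta357

open Pool.Agent.H267.OZ

/-- the starting theorem on the distance to rational planes -/
theorem pd : ∃ c : ℝ, 0 < c ∧ PD3 (∑' n : ℕ, 1 / ((n : ℝ) + 1) ^ 3) (∑' n : ℕ, 1 / ((n : ℝ) + 1) ^ 5)
    (∑' n : ℕ, 1 / ((n : ℝ) + 1) ^ 7) c 1070 := by
  obtain ⟨c, hc, h⟩ := Pool.Agent.Results.MP_c2395a_nt.PlaneDistanceZeta7.result.1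
  refine ⟨c, hc, ?_⟩
  intro q a1 a2 a3 b1 b2 b3 θ H hq hqH h1 h2 h3
  obtain ⟨i, hi, hle⟩ := h q (fun i => if i = 3 then a1 else if i = 5 then a2 else a3)
    (fun i => if i = 3 then b1 else if i = 5 then b2 else b3) θ H hq hqH (by simpa using h1)
    (by simpa using h2) (by simpa using h3)
  rcases hi with rfl | rfl | rfl
  · left
    simpa using hle
  · right; left
    simpa using hle
  · right; right
    simpa using hle

/-- **The rank of the near relations between `1, ζ(3), ζ(5), ζ(7), t_1, …, t_r`.** For every `r` there is `c > 0` such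
that for all real numbers `t_1, …, t_r` and all `X ≥ 1`: among any `r + 2` linearly independent integer vectors
`(a_0, …, a_3; e_1, …, e_r)` with entries of absolute value at most `X` there is one with
`|a_0 + a_1 ζ(3) + a_2 ζ(5) + a_3 ζ(7) + ∑ e_i t_i| ≥ c / X ^ (2142 r + 2141)`. -/
theorem result (r : ℕ) : ∃ c : ℝ, 0 < c ∧ ∀ (t : Fin r → ℝ) (X : ℝ), 1 ≤ X →
    ∀ (a : Fin (r + 2) → Fin 4 → ℤ) (e : Fin (r + 2) → Fin r → ℤ),
      LinearIndependent ℤ (fun k => (a k, e k)) → (∀ k i, |(a k i : ℝ)| ≤ X) →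
      (∀ k i, |(e k i : ℝ)| ≤ X) →
      ∃ k, c / X ^ (2142 * r + 2141) ≤
        |(a k 0 : ℝ) + a k 1 * (∑' n : ℕ, 1 / ((n : ℝ) + 1) ^ 3) +
          a k 2 * (∑' n : ℕ, 1 / ((n : ℝ) + 1) ^ 5) + a k 3 * (∑' n : ℕ, 1 / ((n : ℝ) + 1) ^ 7) +
          ∑ i, (e k i : ℝ) * t i| := by
  obtain ⟨c, hc, h⟩ := pd
  obtain ⟨c', hc', h'⟩ := rank_plane hc h r
  refine ⟨c', hc', fun t X hX a e hv ha he => ?_⟩
  obtain ⟨k, hk⟩ := h' t X hX a e hv ha he
  refine ⟨k, le_trans (le_of_eq ?_) hk⟩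
  congr 2
  ring

end Pool.Agent.Results.MP_c2395a_nt.NearRelationsZeta357
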